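import Mathlib

open Finset Pointwise

namespace Pool.Agent.Results.MP_3570a5_nt.Counter

/-- harmonic numbers -/
def H (n : ℕ) : ℚ := ∑ r ∈ Icc 1 n, (1 : ℚ) / r

/-- product of the multinomial coefficients of the blocks -/
def Cf {p : ℕ} {q : Fin p → ℕ} (k : (Σ i, Fin (q i)) →₀ ℕ) : ℚ :=
  ∏ l : Fin p, ((∑ j : Fin (q l), k ⟨l, j⟩).factorial : ℚ) /
    ∏ j : Fin (q l), ((k ⟨l, j⟩).factorial : ℚ)

/-- the exponent vector lies in the kernel -/
def InK {d p : ℕ} {q : Fin p → ℕ} (v : (Σ i, Fin (q i)) → Fin d → ℤ)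
    (k : (Σ i, Fin (q i)) →₀ ℕ) : Prop :=
  ∑ x, (k x : ℤ) • v x = 0

open Classical in
noncomputable def phi0 {d p : ℕ} {q : Fin p → ℕ} (v : (Σ i, Fin (q i)) → Fin d → ℤ) :
    MvPowerSeries (Σ i, Fin (q i)) ℚ :=
  fun k => if InK v k then Cf k else 0

open Classical in
noncomputable def phi {d p : ℕ} {q : Fin p → ℕ} (v : (Σ i, Fin (q i)) → Fin d → ℤ)
    (x : Σ i, Fin (q i)) : MvPowerSeries (Σ i, Fin (q i)) ℚ :=
  fun k => if InK v k then Cf k * (H (∑ m : Fin (q x.1), k ⟨x.1, m⟩) - H (k x)) else 0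

/-- Minkowski sum of the convex hulls -/
def Delta {d p : ℕ} {q : Fin p → ℕ} (v : (Σ i, Fin (q i)) → Fin d → ℤ) : Set (Fin d → ℝ) :=
  ∑ i : Fin p, convexHull ℝ
    (insert 0 (Set.range fun j : Fin (q i) => fun t => (v ⟨i, j⟩ t : ℝ)))

def qq : Fin 2 → ℕ := ![3, 2]

abbrev I := Σ i : Fin 2, Fin (qq i)

def i0 : I := ⟨0, (0 : Fin 3)⟩
def i1 : I := ⟨0, (1 : Fin 3)⟩
def i2 : I := ⟨0, (2 : Fin 3)⟩
def i3 : I := ⟨1, (0 : Fin 2)⟩
def i4 : I := ⟨1, (1 : Fin 2)⟩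

def vv (x : I) : Fin 3 → ℤ :=
  if x = i0 then ![1, 0, 0] else if x = i1 then ![0, 1, 0] else if x = i2 then ![-1, -1, 0]
  else if x = i3 then ![0, 0, 1] else ![1, 1, -1]

lemma v0 : vv i0 = ![1, 0, 0] := by decide
lemma v1 : vv i1 = ![0, 1, 0] := by decide
lemma v2 : vv i2 = ![-1, -1, 0] := by decide
lemma v3 : vv i3 = ![0, 0, 1] := by decide
lemma v4 : vv i4 = ![1, 1, -1] := by decide

lemma allI : ∀ x : I, x = i0 ∨ x = i1 ∨ x = i2 ∨ x = i3 ∨ x = i4 := by decide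

lemma sumI {M : Type*} [AddCommMonoid M] (f : I → M) :
    ∑ x, f x = f i0 + f i1 + f i2 + (f i3 + f i4) := by
  rw [Fintype.sum_sigma, Fin.sum_univ_two]
  congr 1
  · exact Fin.sum_univ_three (fun j : Fin 3 => f ⟨0, j⟩)
  · exact Fin.sum_univ_two (fun j : Fin 2 => f ⟨1, j⟩)

lemma inK_iff (k : I →₀ ℕ) :
    InK vv k ↔ k i0 = k i1 ∧ k i3 = k i4 ∧ k i2 = k i4 + k i0 := by
  unfold InK
  rw [sumI, v0, v1, v2, v3, v4, funext_iff]
  simp [Fin.forall_fin_succ]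
  omega

noncomputable def e (a b : ℕ) : I →₀ ℕ :=
  Finsupp.equivFunOnFinite.symm fun x =>
    if x = i0 then b else if x = i1 then b else if x = i2 then a + b else a

lemma e0 (a b : ℕ) : e a b i0 = b := by
  simp [e]
lemma e1 (a b : ℕ) : e a b i1 = b := by
  simp [e]
lemma e2 (a b : ℕ) : e a b i2 = a + b := by
  simp [e, show i2 ≠ i0 by decide, show i2 ≠ i1 by decide]
lemma e3 (a b : ℕ) : e a b i3 = a := by
  simp [e, show i3 ≠ i0 by decide, show i3 ≠ i1 by decide, show i3 ≠ i2 by decide]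
lemma e4 (a b : ℕ) : e a b i4 = a := by
  simp [e, show i4 ≠ i0 by decide, show i4 ≠ i1 by decide, show i4 ≠ i2 by decide]

lemma extI (k l : I →₀ ℕ) (h0 : k i0 = l i0) (h1 : k i1 = l i1) (h2 : k i2 = l i2)
    (h3 : k i3 = l i3) (h4 : k i4 = l i4) : k = l := by
  ext x
  rcases allI x with rfl | rfl | rfl | rfl | rfl <;> assumption

lemma inK_e (a b : ℕ) : InK vv (e a b) := by
  rw [inK_iff, e0, e1, e2, e3, e4]
  exact ⟨rfl, rfl, rfl⟩

def C2 (a b : ℕ) : ℚ :=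
  ((b + b + (a + b)).factorial : ℚ) / (b.factorial * b.factorial * (a + b).factorial) *
    (((a + a).factorial : ℚ) / (a.factorial * a.factorial))

lemma Cf_e (a b : ℕ) : Cf (e a b) = C2 a b := by
  unfold Cf C2
  rw [Fin.prod_univ_two]
  have s0 : ∑ j : Fin (qq 0), e a b ⟨0, j⟩ = e a b i0 + e a b i1 + e a b i2 :=
    Fin.sum_univ_three (fun j : Fin 3 => e a b ⟨0, j⟩)
  have s1 : ∑ j : Fin (qq 1), e a b ⟨1, j⟩ = e a b i3 + e a b i4 :=
    Fin.sum_univ_two (fun j : Fin 2 => e a b ⟨1, j⟩)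
  have p0 : ∏ j : Fin (qq 0), ((e a b ⟨0, j⟩).factorial : ℚ) =
      (e a b i0).factorial * (e a b i1).factorial * (e a b i2).factorial :=
    Fin.prod_univ_three (fun j : Fin 3 => ((e a b ⟨0, j⟩).factorial : ℚ))
  have p1 : ∏ j : Fin (qq 1), ((e a b ⟨1, j⟩).factorial : ℚ) =
      (e a b i3).factorial * (e a b i4).factorial :=
    Fin.prod_univ_two (fun j : Fin 2 => ((e a b ⟨1, j⟩).factorial : ℚ))
  rw [s0, s1, p0, p1, e0, e1, e2, e3, e4]

lemma phi0_e (a b : ℕ) : MvPowerSeries.coeff (e a b) (phi0 vv) = C2 a b := by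
  classical
  change (if InK vv (e a b) then Cf (e a b) else 0) = _
  rw [if_pos (inK_e a b), Cf_e]

lemma phi_e (a b : ℕ) : MvPowerSeries.coeff (e a b) (phi vv i0) =
    C2 a b * (H (b + b + (a + b)) - H b) := by
  classical
  change (if InK vv (e a b) then Cf (e a b) *
    (H (∑ m : Fin (qq 0), e a b ⟨0, m⟩) - H (e a b i0)) else 0) = _
  have s0 : ∑ j : Fin (qq 0), e a b ⟨0, j⟩ = e a b i0 + e a b i1 + e a b i2 :=
    Fin.sum_univ_three (fun j : Fin 3 => e a b ⟨0, j⟩)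
  rw [if_pos (inK_e a b), Cf_e, s0, e0, e1, e2]

lemma conv (ψ : MvPowerSeries I ℚ) (a b : ℕ) :
    MvPowerSeries.coeff (e a b) (ψ * phi0 vv) =
      ∑ a' ∈ range (a + 1), ∑ b' ∈ range (b + 1),
        MvPowerSeries.coeff (e (a - a') (b - b')) ψ * C2 a' b' := by
  classical
  rw [MvPowerSeries.coeff_mul, ← sum_product']
  symm
  apply Finset.sum_bij_ne_zero (fun x _ _ => (e (a - x.1) (b - x.2), e x.1 x.2))
  · intro x hx _
    simp only [mem_product, mem_range] at hx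
    rw [HasAntidiagonal.mem_antidiagonal]
    apply extI <;> simp only [Finsupp.add_apply, e0, e1, e2, e3, e4] <;> omega
  · intro x _ _ y _ _ h
    have h2 := (Prod.ext_iff.1 h).2
    have h3 := congrArg (fun k => k i0) h2
    have h4 := congrArg (fun k => k i3) h2
    simp only [e0, e3] at h3 h4
    exact Prod.ext h4 h3
  · intro y hy hne
    rw [HasAntidiagonal.mem_antidiagonal] at hy
    have hK : InK vv y.2 := by
      by_contra hc
      apply hne
      have : MvPowerSeries.coeff y.2 (phi0 vv) = 0 := by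
        change (if InK vv y.2 then Cf y.2 else 0) = _
        rw [if_neg hc]
      rw [this, mul_zero]
    rw [inK_iff] at hK
    have h0 := congrArg (fun k => k i0) hy
    have h1 := congrArg (fun k => k i1) hy
    have h2 := congrArg (fun k => k i2) hy
    have h3 := congrArg (fun k => k i3) hy
    have h4 := congrArg (fun k => k i4) hy
    simp only [Finsupp.add_apply, e0, e1, e2, e3, e4] at h0 h1 h2 h3 h4
    have y2 : e (y.2 i3) (y.2 i0) = y.2 := by
      apply extI <;> simp only [e0, e1, e2, e3, e4] <;> omega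
    have y1 : e (a - y.2 i3) (b - y.2 i0) = y.1 := by
      apply extI <;> simp only [e0, e1, e2, e3, e4] <;> omega
    refine ⟨(y.2 i3, y.2 i0), ?_, ?_, ?_⟩
    · simp only [mem_product, mem_range]
      omega
    · simp only
      rw [y1, ← phi0_e, y2]
      exact hne
    · simp only
      rw [y1, y2]
  · intro x _ _
    simp only
    rw [phi0_e]

lemma coeff_neg : MvPowerSeries.coeff (e 1 4) (phi vv i0 * (phi0 vv)⁻¹) < 0 := by
  set ψ := phi vv i0 * (phi0 vv)⁻¹ with hψ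
  have hc : MvPowerSeries.constantCoeff (phi0 vv) ≠ 0 := by
    have h0 : e 0 0 = 0 := by
      apply extI <;> simp only [e0, e1, e2, e3, e4] <;> rfl
    rw [← MvPowerSeries.coeff_zero_eq_constantCoeff_apply, ← h0, phi0_e]
    simp [C2]
  have hm : ψ * phi0 vv = phi vv i0 := by
    rw [hψ, mul_assoc, MvPowerSeries.inv_mul_cancel _ hc, mul_one]
  have key : ∀ a b, ∑ a' ∈ range (a + 1), ∑ b' ∈ range (b + 1),
      MvPowerSeries.coeff (e (a - a') (b - b')) ψ * C2 a' b' =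
      C2 a b * (H (b + b + (a + b)) - H b) := by
    intro a b
    rw [← conv, hm, phi_e]
  have hH : ∀ n, H n = ∑ r ∈ range n, (1 : ℚ) / (r + 1) := by
    intro n
    unfold H
    induction n with
    | zero => simp
    | succ n ih =>
      rw [sum_Icc_succ_top (by omega), ih, sum_range_succ]
      push_cast
      rfl
  have k00 := key 0 0
  have k01 := key 0 1
  have k02 := key 0 2
  have k03 := key 0 3
  have k04 := key 0 4
  have k10 := key 1 0
  have k11 := key 1 1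
  have k12 := key 1 2
  have k13 := key 1 3
  have k14 := key 1 4
  simp only [hH, sum_range_succ, sum_range_zero, C2, Nat.factorial] at k00 k01 k02 k03 k04 k10 k11 k12 k13 k14
  norm_num at k00 k01 k02 k03 k04 k10 k11 k12 k13 k14
  linarith

def S (i : Fin 2) : Set (Fin 3 → ℝ) :=
  insert 0 (Set.range fun j : Fin (qq i) => fun t => (vv ⟨i, j⟩ t : ℝ))

lemma Delta_eq : Delta vv = convexHull ℝ (S 0) + convexHull ℝ (S 1) := by
  unfold Delta
  rw [Fin.sum_univ_two]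
  rfl

lemma hull_le (i : Fin 2) (a : Fin 3 → ℤ) (c : ℤ) (hc : 0 ≤ c)
    (h : ∀ j : Fin (qq i), a 0 * vv ⟨i, j⟩ 0 + a 1 * vv ⟨i, j⟩ 1 + a 2 * vv ⟨i, j⟩ 2 ≤ c) :
    ∀ x ∈ convexHull ℝ (S i), a 0 * x 0 + a 1 * x 1 + a 2 * x 2 ≤ (c : ℝ) := by
  have hl : IsLinearMap ℝ (fun x : Fin 3 → ℝ => a 0 * x 0 + a 1 * x 1 + a 2 * x 2) := by
    constructor
    · intro x y
      simp only [Pi.add_apply]
      ring
    · intro r x
      simp only [Pi.smul_apply, smul_eq_mul]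
      ring
  intro x hx
  refine convexHull_min ?_ (convex_halfSpace_le hl (c : ℝ)) hx
  rintro y (rfl | ⟨j, rfl⟩)
  · simpa using hc
  · have := h j
    simp only [Set.mem_ofPred_eq]
    exact_mod_cast this

lemma interior_lt (a : Fin 3 → ℤ) (c0 c1 : ℤ) (h0 : 0 ≤ c0) (h1 : 0 ≤ c1)
    (ha : 0 < a 0 ^ 2 + a 1 ^ 2 + a 2 ^ 2) (hb : ∀ t, |a t| ≤ 2)
    (g0 : ∀ j : Fin (qq 0), a 0 * vv ⟨0, j⟩ 0 + a 1 * vv ⟨0, j⟩ 1 + a 2 * vv ⟨0, j⟩ 2 ≤ c0)
    (g1 : ∀ j : Fin (qq 1), a 0 * vv ⟨1, j⟩ 0 + a 1 * vv ⟨1, j⟩ 1 + a 2 * vv ⟨1, j⟩ 2 ≤ c1)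
    (w : Fin 3 → ℤ) (hw : (fun t => (w t : ℝ)) ∈ interior (Delta vv)) :
    a 0 * w 0 + a 1 * w 1 + a 2 * w 2 < c0 + c1 := by
  rw [mem_interior_iff_mem_nhds, Metric.mem_nhds_iff] at hw
  obtain ⟨ε, hε, hball⟩ := hw
  have hm : (fun t => (w t : ℝ) + ε / 4 * a t) ∈ Metric.ball (fun t => (w t : ℝ)) ε := by
    rw [Metric.mem_ball, dist_pi_lt_iff hε]
    intro t
    rw [Real.dist_eq, add_sub_cancel_left, abs_mul, abs_of_pos (by linarith : 0 < ε / 4)]
    have : |(a t : ℝ)| ≤ 2 := by exact_mod_cast hb t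
    nlinarith
  have hD := hball hm
  rw [Delta_eq] at hD
  obtain ⟨x, hx, y, hy, hxy⟩ := hD
  have b0 := hull_le 0 a c0 h0 g0 x hx
  have b1 := hull_le 1 a c1 h1 g1 y hy
  have e0 := congrFun hxy 0
  have e1 := congrFun hxy 1
  have e2 := congrFun hxy 2
  simp only [Pi.add_apply] at e0 e1 e2
  have ha' : (0 : ℝ) < a 0 ^ 2 + a 1 ^ 2 + a 2 ^ 2 := by exact_mod_cast ha
  have : (a 0 : ℝ) * w 0 + a 1 * w 1 + a 2 * w 2 < c0 + c1 := by
    have s : (a 0 : ℝ) * (x 0 + y 0) + a 1 * (x 1 + y 1) + a 2 * (x 2 + y 2) ≤ c0 + c1 := by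
      linarith
    rw [e0, e1, e2] at s
    nlinarith [mul_pos hε ha']
  exact_mod_cast this

lemma fano (w : Fin 3 → ℤ) (hw : (fun t => (w t : ℝ)) ∈ interior (Delta vv)) : w = 0 := by
  have a1 := interior_lt ![0, 0, 1] 0 1 (by decide) (by decide) (by decide) (by decide)
    (by decide) (by decide) w hw
  have a2 := interior_lt ![0, 0, -1] 0 1 (by decide) (by decide) (by decide) (by decide)
    (by decide) (by decide) w hw
  have a3 := interior_lt ![1, 1, 1] 1 1 (by decide) (by decide) (by decide) (by decide)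
    (by decide) (by decide) w hw
  have a4 := interior_lt ![1, -1, 0] 1 0 (by decide) (by decide) (by decide) (by decide)
    (by decide) (by decide) w hw
  have a5 := interior_lt ![-1, 1, 0] 1 0 (by decide) (by decide) (by decide) (by decide)
    (by decide) (by decide) w hw
  have a6 := interior_lt ![1, -2, 0] 1 0 (by decide) (by decide) (by decide) (by decide)
    (by decide) (by decide) w hw
  simp at a1 a2 a3 a4 a5 a6
  funext t
  fin_cases t <;> simp <;> omega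

lemma zero_mem : (0 : Fin 3 → ℝ) ∈ interior (Delta vv) := by
  rw [mem_interior_iff_mem_nhds, Metric.mem_nhds_iff]
  refine ⟨1 / 10, by norm_num, ?_⟩
  intro w hw
  rw [Metric.mem_ball, dist_pi_lt_iff (by norm_num)] at hw
  have w0 := hw 0
  have w1 := hw 1
  have w2 := hw 2
  simp only [Pi.zero_apply, Real.dist_eq, sub_zero, abs_lt] at w0 w1 w2
  rw [Delta_eq]
  have m0 : (0 : Fin 3 → ℝ) ∈ convexHull ℝ (S 0) := subset_convexHull _ _ (Or.inl rfl)
  have m1 : (0 : Fin 3 → ℝ) ∈ convexHull ℝ (S 1) := subset_convexHull _ _ (Or.inl rfl)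
  have n0 : (fun t => (vv i0 t : ℝ)) ∈ convexHull ℝ (S 0) :=
    subset_convexHull _ _ (Or.inr ⟨(0 : Fin 3), rfl⟩)
  have n1 : (fun t => (vv i1 t : ℝ)) ∈ convexHull ℝ (S 0) :=
    subset_convexHull _ _ (Or.inr ⟨(1 : Fin 3), rfl⟩)
  have n2 : (fun t => (vv i2 t : ℝ)) ∈ convexHull ℝ (S 0) :=
    subset_convexHull _ _ (Or.inr ⟨(2 : Fin 3), rfl⟩)
  have n3 : (fun t => (vv i3 t : ℝ)) ∈ convexHull ℝ (S 1) :=
    subset_convexHull _ _ (Or.inr ⟨(0 : Fin 2), rfl⟩)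
  have n4 : (fun t => (vv i4 t : ℝ)) ∈ convexHull ℝ (S 1) :=
    subset_convexHull _ _ (Or.inr ⟨(1 : Fin 2), rfl⟩)
  have c0 := (convex_convexHull ℝ (S 0)).sum_mem (t := (univ : Finset (Fin 4)))
    (w := ![1 - (w 0 + 1 / 10) - (w 1 + 1 / 10) - 1 / 5, w 0 + 1 / 10, w 1 + 1 / 10, 1 / 5])
    (z := ![0, fun t => (vv i0 t : ℝ), fun t => (vv i1 t : ℝ), fun t => (vv i2 t : ℝ)])
    (by intro i _; fin_cases i <;> simp <;> linarith)
    (by simp [Fin.sum_univ_four]; ring)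
    (by intro i _; fin_cases i <;> simp [m0, n0, n1, n2])
  have c1 := (convex_convexHull ℝ (S 1)).sum_mem (t := (univ : Finset (Fin 3)))
    (w := ![1 - (w 2 + 1 / 10) - 1 / 10, w 2 + 1 / 10, 1 / 10])
    (z := ![0, fun t => (vv i3 t : ℝ), fun t => (vv i4 t : ℝ)])
    (by intro i _; fin_cases i <;> simp <;> linarith)
    (by simp [Fin.sum_univ_three]; ring)
    (by intro i _; fin_cases i <;> simp [m1, n3, n4])
  refine ⟨_, c0, _, c1, ?_⟩
  funext t
  simp only [Fin.sum_univ_four, Fin.sum_univ_three, v0, v1, v2, v3, v4]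
  fin_cases t <;> simp <;> ring

lemma span_top : Submodule.span ℤ (Set.range vv) = ⊤ := by
  rw [eq_top_iff]
  intro w _
  have : w = w 0 • vv i0 + w 1 • vv i1 + w 2 • vv i3 := by
    rw [v0, v1, v3]
    funext t
    fin_cases t <;> simp
  rw [this]
  refine Submodule.add_mem _ (Submodule.add_mem _ ?_ ?_) ?_ <;>
    exact Submodule.smul_mem _ _ (Submodule.subset_span ⟨_, rfl⟩)

theorem result : ∃ (d p : ℕ) (q : Fin p → ℕ) (v : (Σ i, Fin (q i)) → Fin d → ℤ),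
    1 ≤ d ∧ 1 ≤ p ∧ (∀ i, 1 ≤ q i) ∧
    (0 : Fin d → ℝ) ∈ interior (Delta v) ∧
    Submodule.span ℤ (Set.range v) = ⊤ ∧
    (∀ w : Fin d → ℤ, (fun t => (w t : ℝ)) ∈ interior (Delta v) → w = 0) ∧
    ∃ (x : Σ i, Fin (q i)) (k : (Σ i, Fin (q i)) →₀ ℕ), InK v k ∧
      MvPowerSeries.coeff k (phi v x * (phi0 v)⁻¹) < 0 :=
  ⟨3, 2, qq, vv, by norm_num, by norm_num, by decide, zero_mem, span_top, fano, i0, e 1 4,
    inK_e 1 4, coeff_neg⟩

end Pool.Agent.Results.MP_3570a5_nt.Counter
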